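import Pool.Agent.Helper51.AJ.St
import Pool.Agent.Helper51.AJ.Basic

/-!
# Project AJ (MP_d63854_co), module DSA: disconnected excluded minors
-/

set_option autoImplicit false

namespace Pool.Agent.Helper6.AJ

open Pool.Agent.Helper51.AJ

/-- no edges between `A` and its complement -/
def Sep {V : Type} (G : SimpleGraph V) (A : Set V) : Prop := ∀ a ∈ A, ∀ b ∉ A, ¬ G.Adj a b

theorem DSA_sep_iff {V : Type} {G : SimpleGraph V} {A : Set V} (h : Sep G A) {x y : V} (hxy : G.Adj x y) :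
    x ∈ A ↔ y ∈ A := by
  constructor
  · intro hx
    by_contra hy
    exact h x hx y hy hxy
  · intro hy
    by_contra hx
    exact h y hy x hx hxy.symm

theorem DSA_sep_compl {V : Type} {G : SimpleGraph V} {A : Set V} (h : Sep G A) : Sep G Aᶜ := by
  intro a ha b hb hab
  exact ha ((DSA_sep_iff h hab).2 (not_not.1 hb))

theorem DSA_reach {V : Type} {G : SimpleGraph V} {A S : Set V} (h : Sep G A) {x y : S}
    (hxy : (G.induce S).Reachable x y) : x.1 ∈ A ↔ y.1 ∈ A := by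
  obtain ⟨p⟩ := hxy
  induction p with
  | nil => exact Iff.rfl
  | cons hab _ ih => exact (DSA_sep_iff h hab).trans ih

theorem DSA_side {V : Type} {G : SimpleGraph V} {A S : Set V} (h : Sep G A) (hS : Con G S) :
    S ⊆ A ∨ S ⊆ Aᶜ := by
  obtain ⟨x, hx⟩ := con_nonempty hS
  have h1 : ∀ y ∈ S, (x ∈ A ↔ y ∈ A) := fun y hy =>
    DSA_reach h (hS.preconnected ⟨x, hx⟩ ⟨y, hy⟩)
  by_cases hxA : x ∈ A
  · exact Or.inl fun y hy => (h1 y hy).1 hxA
  · exact Or.inr fun y hy hyA => hxA ((h1 y hy).2 hyA)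

theorem DSA_conn {V W : Type} {G : SimpleGraph V} {H : SimpleGraph W} {A : Set V} (h : Sep G A)
    (hH : H.Connected) (hm : IsMinor H G) : Mod H G A ∨ Mod H G Aᶜ := by
  obtain ⟨φ, h1, h2, h3⟩ := hm
  have h4 : ∀ w, φ w ⊆ A ∨ φ w ⊆ Aᶜ := fun w => DSA_side h (h1 w)
  have h5 : ∀ w w', H.Adj w w' → φ w ⊆ A → φ w' ⊆ A := by
    intro w w' hw hs
    obtain ⟨x, hx, y, hy, hxy⟩ := h3 w w' hw
    rcases h4 w' with h6 | h6
    · exact h6
    · exact absurd ((DSA_sep_iff h hxy).1 (hs hx)) (h6 hy)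
  have h6 : ∀ w w', H.Reachable w w' → φ w ⊆ A → φ w' ⊆ A := by
    rintro w w' ⟨p⟩
    induction p with
    | nil => exact fun h => h
    | cons hab _ ih => exact fun h => ih (h5 _ _ hab h)
  obtain ⟨w0⟩ := hH.nonempty
  by_cases h7 : φ w0 ⊆ A
  · exact Or.inl ⟨φ, fun w => h6 w0 w (hH.preconnected w0 w) h7, h1, h2, h3⟩
  · refine Or.inr ⟨φ, fun w => ?_, h1, h2, h3⟩
    rcases h4 w with h8 | h8
    · exact absurd (h6 w w0 (hH.preconnected w w0) h8) h7
    · exact h8

theorem DSA_k5 : (⊤ : SimpleGraph (Fin 5)).Connected := SimpleGraph.connected_top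

theorem DSA_k33 : (completeBipartiteGraph (Fin 3) (Fin 3)).Connected := by
  have h1 : ∀ x, (completeBipartiteGraph (Fin 3) (Fin 3)).Reachable (Sum.inl 0) x := by
    intro x
    have hr : ∀ j : Fin 3, (completeBipartiteGraph (Fin 3) (Fin 3)).Reachable (Sum.inl 0) (Sum.inr j) := by
      intro j
      exact SimpleGraph.Adj.reachable (by simp)
    rcases x with i | j
    · refine (hr 0).trans ?_
      exact SimpleGraph.Adj.reachable (by simp)
    · exact hr j
  refine ⟨fun x y => (h1 x).symm.trans (h1 y)⟩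

theorem DSA_planar (h1 : StTrn) {V : Type} {G : SimpleGraph V} {A : Set V} (h : Sep G A)
    (hA : Planar (G.induce A)) (hB : Planar (G.induce Aᶜ)) : Planar G := by
  constructor
  · intro hm
    rcases DSA_conn h DSA_k5 hm with h2 | h2
    · exact hA.1 ((h1.2 _ _ _ _ _).2 h2)
    · exact hB.1 ((h1.2 _ _ _ _ _).2 h2)
  · intro hm
    rcases DSA_conn h DSA_k33 hm with h2 | h2
    · exact hA.2 ((h1.2 _ _ _ _ _).2 h2)
    · exact hB.2 ((h1.2 _ _ _ _ _).2 h2)

theorem DSA_notApex (h2 : StJnm) {U V : Type} {K : SimpleGraph U} {L : SimpleGraph V}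
    (hK : ¬ Planar K) (hL : ¬ Planar L) : ¬ Apex (K ⊕g L) := by
  rintro (h | ⟨v, h⟩)
  · refine hK (h2.2.2 _ _ K (K ⊕g L) ?_ h)
    exact isMinor_of_hom Sum.inl Sum.inl_injective (fun a b hab => by simpa using hab)
  · rcases v with u | v
    · refine hL (h2.2.2 _ _ L _ ?_ h)
      refine isMinor_of_hom (fun b => ⟨Sum.inr b, by simp⟩) ?_ ?_
      · intro a b hab
        simpa using hab
      · intro a b hab
        simpa using hab
    · refine hK (h2.2.2 _ _ K _ ?_ h)
      refine isMinor_of_hom (fun b => ⟨Sum.inl b, by simp⟩) ?_ ?_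
      · intro a b hab
        simpa using hab
      · intro a b hab
        simpa using hab

theorem DSA_sumMinor {U W V : Type} {G : SimpleGraph V} {K : SimpleGraph U} {L : SimpleGraph W}
    {A : Set V} (hK : Mod K G A) (hL : Mod L G Aᶜ) : IsMinor (K ⊕g L) G := by
  obtain ⟨φ, a1, a2, a3, a4⟩ := hK
  obtain ⟨ψ, b1, b2, b3, b4⟩ := hL
  refine ⟨Sum.elim φ ψ, ?_, ?_, ?_⟩
  · rintro (w | w)
    · exact a2 w
    · exact b2 w
  · rintro (w | w) (w' | w') hne
    · exact a3 w w' fun h => hne (by rw [h])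
    · exact Set.disjoint_left.2 fun x hx hx' => b1 w' hx' (a1 w hx)
    · exact Set.disjoint_left.2 fun x hx hx' => b1 w hx (a1 w' hx')
    · exact b3 w w' fun h => hne (by rw [h])
  · rintro (w | w) (w' | w') hw
    · exact a4 w w' (by simpa using hw)
    · simp at hw
    · simp at hw
    · exact b4 w w' (by simpa using hw)

theorem DSA_notPlanar (h1 : StTrn) (h2 : StJnm) {V : Type} [Finite V] {G : SimpleGraph V}
    (hG : ExMinor G) {A : Set V} (h : Sep G A) (hA : A.Nonempty) : ¬ Planar (G.induce A) := by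
  intro hp
  have h3 : ¬ Nonempty (G.induce Aᶜ ≃g G) := by
    rintro ⟨e⟩
    have h4 : Nat.card (Aᶜ : Set V) = Nat.card V := Nat.card_congr e.toEquiv
    have h5 : (Aᶜ : Set V) = Set.univ := by
      apply Set.eq_of_subset_of_ncard_le (Set.subset_univ _) _ (Set.finite_univ)
      rw [Set.ncard_univ, ← h4]
      exact le_of_eq (Nat.card_coe_set_eq _)
    obtain ⟨a, ha⟩ := hA
    have : a ∈ (Aᶜ : Set V) := by
      rw [h5]
      trivial
    exact this ha
  have h4 : Apex (G.induce Aᶜ) := hG.2 _ _ (isMinor_induce G Aᶜ) h3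
  rcases h4 with h4 | ⟨b, h4⟩
  · exact hG.1 (Or.inl (DSA_planar h1 h hp h4))
  · refine hG.1 (Or.inr ⟨b.1, ?_⟩)
    have hs : Sep (G.induce ({b.1}ᶜ : Set V)) {z | z.1 ∈ A} := by
      intro x hx y hy hxy
      exact h x.1 hx y.1 hy hxy
    refine DSA_planar h1 hs ?_ ?_
    · refine h2.2.2 _ _ _ _ ?_ hp
      refine isMinor_of_hom (fun z => ⟨z.1.1, z.2⟩) ?_ ?_
      · intro x y hxy
        have hxy' := congrArg Subtype.val hxy
        exact Subtype.ext (Subtype.ext hxy')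
      · intro x y hxy
        exact hxy
    · refine h2.2.2 _ _ _ _ ?_ h4
      refine isMinor_of_hom (fun z => ⟨⟨z.1.1, z.2⟩, ?_⟩) ?_ ?_
      · intro hz
        exact z.1.2 (congrArg Subtype.val hz)
      · intro x y hxy
        have hxy' := congrArg (fun t => t.1.1) hxy
        exact Subtype.ext (Subtype.ext hxy')
      · intro x y hxy
        exact hxy

theorem DSA_exists {V : Type} {G : SimpleGraph V} (h : ¬ G.Preconnected) :
    ∃ A : Set V, A.Nonempty ∧ Aᶜ.Nonempty ∧ Sep G A := by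
  unfold SimpleGraph.Preconnected at h
  push Not at h
  obtain ⟨x, y, hxy⟩ := h
  refine ⟨{z | G.Reachable x z}, ⟨x, SimpleGraph.Reachable.refl x⟩, ⟨y, hxy⟩, ?_⟩
  intro a ha b hb hab
  exact hb (SimpleGraph.Reachable.trans ha hab.reachable)

theorem hDSA (h1 : StTrn) (h2 : StJnm) : StDsa := by
  intro V _ G hG hd
  obtain ⟨A, hA, hAc, hs⟩ := DSA_exists hd
  have hP := DSA_notPlanar h1 h2 hG hs hA
  have hQ := DSA_notPlanar h1 h2 hG (DSA_sep_compl hs) hAc
  have n5 : ¬ Planar (⊤ : SimpleGraph (Fin 5)) := fun h => h.1 (isMinor_refl _)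
  have n33 : ¬ Planar (completeBipartiteGraph (Fin 3) (Fin 3)) := fun h => h.2 (isMinor_refl _)
  have key : ∀ (U W : Type) [Finite U] [Finite W] (K : SimpleGraph U) (L : SimpleGraph W),
      ¬ Planar K → ¬ Planar L → IsMinor K (G.induce A) → IsMinor L (G.induce Aᶜ) →
      Nonempty (K ⊕g L ≃g G) := by
    intro U W _ _ K L hK hL hKm hLm
    by_contra hne
    exact DSA_notApex h2 hK hL
      (hG.2 _ _ (DSA_sumMinor ((h1.2 _ _ _ _ _).1 hKm) ((h1.2 _ _ _ _ _).1 hLm)) hne)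
  unfold Planar at hP hQ
  rw [not_and_or, not_not, not_not] at hP hQ
  rcases hP with hP | hP <;> rcases hQ with hQ | hQ
  · exact Or.inl (key _ _ _ _ n5 n5 hP hQ)
  · exact Or.inr (Or.inl (key _ _ _ _ n5 n33 hP hQ))
  · obtain ⟨e⟩ := key _ _ _ _ n33 n5 hP hQ
    exact Or.inr (Or.inl ⟨SimpleGraph.Iso.sumComm.trans e⟩)
  · exact Or.inr (Or.inr (key _ _ _ _ n33 n33 hP hQ))

end Pool.Agent.Helper6.AJ
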